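import Pool.Agent.Helper28.T3.StA

/-!
# Project T3, module LIM: `L(1, χ)` is the residue of the Dedekind zeta function
-/

set_option autoImplicit false

open scoped NumberField Topology
open Filter

namespace Pool.Agent.Helper60.T3

open Pool.Agent.Helper28.T3

theorem hLIM : StLIM := by
  intro D K _ _ _ χ hχ hJ hcount
  -- the factorization for `1 < re s`
  have hfac : ∀ s : ℂ, 1 < s.re →
      NumberField.dedekindZeta K s = riemannZeta s * χ.LFunction s := by
    intro s hs
    have hcongr : NumberField.dedekindZeta K s =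
        LSeries (LSeries.convolution (1 : ℕ → ℂ) (fun n : ℕ => χ (n : ZMod D))) s := by
      unfold NumberField.dedekindZeta
      refine LSeries_congr (fun {n} hn => ?_) s
      rw [LSeries.convolution_def]
      have h1 := hcount n (Nat.one_le_iff_ne_zero.mpr hn)
      have h2 : (Nat.card {I : Ideal (𝓞 K) // Ideal.absNorm I = n} : ℂ) =
          ((Nat.card {I : Ideal (𝓞 K) // Ideal.absNorm I = n} : ℤ) : ℂ) := by
        push_cast
        rfl
      rw [h2, h1]
      push_cast
      have h3 : ∀ d : ℕ, ((jacobiSym (d : ℤ) D : ℤ) : ℂ) = χ (d : ZMod D) := by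
        intro d
        rw [← hJ (d : ℤ)]
        push_cast
        rfl
      simp only [Pi.one_apply, one_mul]
      rw [Nat.sum_divisorsAntidiagonal' (f := fun _ j => χ ((j : ℕ) : ZMod D))]
      exact Finset.sum_congr rfl fun d _ => h3 d
    rw [hcongr, LSeries_convolution' (LSeriesSummable_one_iff.mpr hs)
      (DirichletCharacter.LSeriesSummable_of_one_lt_re χ hs), LSeries_one_eq_riemannZeta hs,
      DirichletCharacter.LFunction_eq_LSeries χ hs]
  -- limits
  have hcoe : Tendsto (fun s : ℝ => (s : ℂ)) (𝓝[>] 1) (𝓝[≠] 1) := by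
    refine tendsto_nhdsWithin_iff.mpr ⟨?_, ?_⟩
    · have h := (Complex.continuous_ofReal.tendsto (1 : ℝ)).mono_left
        (nhdsWithin_le_nhds (s := Set.Ioi (1 : ℝ)))
      simpa using h
    · filter_upwards [self_mem_nhdsWithin] with s hs
      have hs' : (1 : ℝ) < s := hs
      simp only [Set.mem_compl_iff, Set.mem_singleton_iff]
      intro h
      have : s = 1 := by exact_mod_cast h
      linarith
  have hz : Tendsto (fun s : ℝ => ((s : ℂ) - 1) * riemannZeta s) (𝓝[>] 1) (𝓝 1) :=
    riemannZeta_residue_one.comp hcoe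
  have hL : Tendsto (fun s : ℝ => χ.LFunction (s : ℂ)) (𝓝[>] 1) (𝓝 (χ.LFunction 1)) :=
    ((DirichletCharacter.differentiable_LFunction hχ).continuous.tendsto 1).comp
      (hcoe.mono_right nhdsWithin_le_nhds)
  have hprod := hz.mul hL
  rw [one_mul] at hprod
  have hK := NumberField.tendsto_sub_one_mul_dedekindZeta_nhdsGT K
  refine tendsto_nhds_unique (hprod.congr' ?_) hK
  filter_upwards [self_mem_nhdsWithin] with s hs
  have hs' : (1 : ℝ) < s := hs
  rw [hfac (s : ℂ) (by simpa using hs')]
  ring

end Pool.Agent.Helper60.T3
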